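import Pool.Agent.W547.LQ.Defs
import Pool.Agent.W547.LN.Tate
import Pool.Agent.W547.TM.Main

/-!
# Tate classes modulo a stable subspace
-/

set_option linter.unusedSectionVars false
set_option linter.unusedVariables false

namespace Pool.Agent.W547.LQ

open NumberField Pool.Agent.H204R3.CM Pool.Agent.W547.KB Pool.Agent.W547.LD Pool.Agent.W530.NF
open Equiv Module

noncomputable section

/-- The kernel of `S` maps onto the kernel of the map induced on the quotient by a stable subspace,
if zero is a semisimple eigenvalue. -/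
theorem lift_invariant {K F : Type} [Field K] [AddCommGroup F] [Module K F] [FiniteDimensional K F]
    (S : F →ₗ[K] F) (hss : ∀ f, S (S f) = 0 → S f = 0) (W : Submodule K F)
    (hW : ∀ f ∈ W, S f ∈ W) (f : F) (hf : S f ∈ W) : ∃ f0, S f0 = 0 ∧ f - f0 ∈ W := by
  let R : Submodule K F := W ⊓ LinearMap.range S
  have hR : ∀ r ∈ R, S r ∈ R := fun r hr => ⟨hW r hr.1, ⟨r, rfl⟩⟩
  let SR : R →ₗ[K] R := S.restrict hR
  have hinj : Function.Injective SR := by
    rw [← LinearMap.ker_eq_bot, LinearMap.ker_eq_bot']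
    rintro ⟨r, hr, g, rfl⟩ h
    have h1 : S (S g) = 0 := congrArg Subtype.val h
    exact Subtype.ext (hss g h1)
  have hsurj : Function.Surjective SR := LinearMap.injective_iff_surjective.1 hinj
  obtain ⟨⟨w, hw⟩, hw'⟩ := hsurj ⟨S f, hf, ⟨f, rfl⟩⟩
  have h1 : S w = S f := congrArg Subtype.val hw'
  refine ⟨f - w, by rw [map_sub, h1, sub_self], ?_⟩
  rw [sub_sub_cancel]
  exact hw.1

/-- The complex coefficients of a rational form. -/
theorem exists_coeff (X : CMAV) {κ : Type} [Fintype κ] [DecidableEq κ]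
    (f : X.H1 [⋀^κ]→ₗ[ℚ] ℚ) : ∃ c : (κ → Wt X ℂ) → ℂ, ∀ v : κ → X.H1, ((f v : ℚ) : ℂ) =
      ∑ I : κ → Wt X ℂ, c I * ∏ l, (I l).2 (v l (I l).1) := by
  rcases isEmpty_or_nonempty X.I with hI | hI
  · have hs : Subsingleton X.H1 := ⟨fun a b => funext fun i => isEmptyElim i⟩
    refine ⟨fun _ => f 0, fun v => ?_⟩
    have hv : v = 0 := Subsingleton.elim _ _
    rcases isEmpty_or_nonempty κ with hκ | ⟨⟨k⟩⟩
    · rw [Fintype.sum_unique, Finset.univ_eq_empty, Finset.prod_empty, mul_one, hv]
    · have : IsEmpty (κ → Wt X ℂ) := ⟨fun I => hI.false (I k).1⟩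
      rw [Finset.univ_eq_empty, Finset.sum_empty, f.map_coord_zero k (Subsingleton.elim _ _),
        Rat.cast_zero]
  obtain ⟨L, _, _, _, _, j, hj⟩ := exists_cm X
  obtain ⟨c, hc⟩ := form_coeff (E := fun i : X.I => (X.factor i).E) (fun i : X.I => i) j hj
    f.toMultilinearMap
  let e : (κ → Wt X L) ≃ (κ → Wt X ℂ) := Equiv.arrowCongr (Equiv.refl κ)
    (xEquiv (E := fun i : X.I => (X.factor i).E) (fun i : X.I => i) j hj)
  refine ⟨fun I' => j (c (e.symm I')), fun v => ?_⟩
  have h2 := congrArg j (hc v)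
  rw [map_ratCast, map_sum] at h2
  refine h2.trans ?_
  refine Fintype.sum_equiv e _ _ fun I => ?_
  rw [map_mul, map_prod]
  change j (c I) * _ = j (c (e.symm (e I))) * _
  rw [Equiv.symm_apply_apply]
  rfl

/-- The coefficients are determined by the form. -/
theorem coeff_zero {X : CMAV} {κ : Type} [Fintype κ] [DecidableEq κ] (c : (κ → Wt X ℂ) → ℂ)
    (hc : ∀ v : κ → X.H1, ∑ I : κ → Wt X ℂ, c I * ∏ l, (I l).2 (v l (I l).1) = 0)
    (I : κ → Wt X ℂ) : c I = 0 := by
  classical
  let E : X.I → Type := fun i => (X.factor i).E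
  let t : X.I → X.I := fun i => i
  have hG : formOf (E := E) t c = 0 := by
    refine multilinear_ext_span _ _ _ (span_chi (E := E) t) ?_
    intro v hv
    choose w hw using hv
    have hv' : v = fun l => chi E t ℂ (w l) := funext fun l => (hw l).symm
    rw [hv', formOf_apply]
    exact hc w
  have h3 := DFunLike.congr_fun hG (fun l => Pi.single (I l) (1 : ℂ))
  rw [formOf_single, Finset.prod_const_one, mul_one] at h3
  exact h3

/-- Semisimplicity of the action of an element on the rational forms. -/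
theorem semisimple_rat (X : CMAV) {κ : Type} [Finite κ] (π : X.H1) (Q : ℚ) (hQ : Q ≠ 0)
    (f g : X.H1 [⋀^κ]→ₗ[ℚ] ℚ)
    (hf : ∀ v : κ → X.H1, f (fun k => π * v k) = Q * (f v + g v))
    (hg : ∀ v : κ → X.H1, g (fun k => π * v k) = Q * g v) : g = 0 := by
  classical
  have := Fintype.ofFinite κ
  obtain ⟨c, hc⟩ := exists_coeff X f
  obtain ⟨d, hd⟩ := exists_coeff X g
  let lam : (κ → Wt X ℂ) → ℂ := fun I => ∏ l, (I l).2 (π (I l).1)
  have hmul : ∀ (b : (κ → Wt X ℂ) → ℂ) (v : κ → X.H1),
      ∑ I : κ → Wt X ℂ, b I * ∏ l, (I l).2 ((π * v l) (I l).1) =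
        ∑ I : κ → Wt X ℂ, (b I * lam I) * ∏ l, (I l).2 (v l (I l).1) := by
    intro b v
    refine Finset.sum_congr rfl fun I _ => ?_
    have h1 : ∏ l, (I l).2 ((π * v l) (I l).1) =
        lam I * ∏ l, (I l).2 (v l (I l).1) := by
      change _ = (∏ l, (I l).2 (π (I l).1)) * _
      rw [← Finset.prod_mul_distrib]
      refine Finset.prod_congr rfl fun l _ => ?_
      rw [← map_mul]
      rfl
    rw [h1, mul_assoc]
  have h1 : ∀ I, c I * lam I - (Q : ℂ) * (c I + d I) = 0 := by
    refine coeff_zero (fun I => c I * lam I - (Q : ℂ) * (c I + d I)) fun v => ?_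
    have h2 := hc (fun k => π * v k)
    rw [hf v, hmul, Rat.cast_mul, Rat.cast_add, hc v, hd v, ← Finset.sum_add_distrib,
      Finset.mul_sum] at h2
    simp only [sub_mul, Finset.sum_sub_distrib]
    rw [← h2, sub_eq_zero]
    refine Finset.sum_congr rfl fun I _ => ?_
    ring
  have h2 : ∀ I, d I * lam I - (Q : ℂ) * d I = 0 := by
    refine coeff_zero (fun I => d I * lam I - (Q : ℂ) * d I) fun v => ?_
    have h2 := hd (fun k => π * v k)
    rw [hg v, hmul, Rat.cast_mul, hd v, Finset.mul_sum] at h2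
    simp only [sub_mul, Finset.sum_sub_distrib]
    rw [← h2, sub_eq_zero]
    refine Finset.sum_congr rfl fun I _ => ?_
    ring
  have h3 : ∀ I, d I = 0 := by
    intro I
    by_contra hne
    have h4 : lam I = Q := by
      have h5 : d I * (lam I - Q) = 0 := by linear_combination h2 I
      exact sub_eq_zero.1 ((mul_eq_zero.1 h5).resolve_left hne)
    have h5 := h1 I
    rw [h4] at h5
    have h6 : (Q : ℂ) * d I = 0 := by linear_combination -h5
    exact hne ((mul_eq_zero.1 h6).resolve_left (Rat.cast_ne_zero.2 hQ))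
  ext v
  have h4 := hd v
  simp only [h3, zero_mul, Finset.sum_const_zero] at h4
  have h5 : g v = 0 := by exact_mod_cast h4
  rw [h5]
  rfl

/-- A form on the Tate module which vanishes on the rational homology is zero. -/
theorem eq_zero_of_restr {X : CMAV} {K V : Type} [Field K] [AddCommGroup V] [Module K V]
    (C : Comparison X K V) {κ : Type} [Finite κ] (f : V [⋀^κ]→ₗ[K] K)
    (h : ∀ v : κ → X.H1, f (fun k => C.ι (v k)) = 0) : f = 0 := by
  have := Fintype.ofFinite κ
  have h1 : f.toMultilinearMap = 0 := by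
    refine multilinear_ext_span _ _ (Set.range C.ι) C.span_eq ?_
    intro v hv
    choose w hw using hv
    have hv' : v = fun l => C.ι (w l) := funext fun l => (hw l).symm
    rw [hv']
    exact h w
  ext v
  exact congrFun (congrArg DFunLike.coe h1) v

theorem semisimple (X : CMAV) {K V : Type} [Field K] [CharZero K] [AddCommGroup V] [Module K V]
    (C : Comparison X K V) {κ : Type} [Finite κ] (π : X.H1) (Q : ℚ) (hQ : Q ≠ 0)
    (f g : V [⋀^κ]→ₗ[K] K)
    (hf : ∀ v : κ → X.H1, f (fun k => C.ι (π * v k)) =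
      (Q : K) * (f (fun k => C.ι (v k)) + g (fun k => C.ι (v k))))
    (hg : ∀ v : κ → X.H1, g (fun k => C.ι (π * v k)) = (Q : K) * g (fun k => C.ι (v k))) :
    g = 0 := by
  classical
  let _ : Algebra ℚ K := DivisionRing.toRatAlgebra
  obtain ⟨n, c, fr, hc, hfr⟩ := exists_decomp (LF.restr C f)
  -- multiplication by `π`
  let mulpi : X.H1 →ₗ[ℚ] X.H1 := LinearMap.mulLeft ℚ π
  let gr : Fin n → X.H1 [⋀^κ]→ₗ[ℚ] ℚ := fun i => Q⁻¹ • (fr i).compLinearMap mulpi - fr i
  have hgr : ∀ i v, gr i v = Q⁻¹ * fr i (fun k => π * v k) - fr i v := fun i v => rfl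
  have hfv : ∀ v : κ → X.H1, f (fun k => C.ι (v k)) = ∑ i, fr i v • c i := hfr
  have hgv : ∀ v : κ → X.H1, g (fun k => C.ι (v k)) = ∑ i, gr i v • c i := by
    intro v
    have h1 := hf v
    rw [hfv (fun k => π * v k), hfv v] at h1
    have hQ' : (Q : K) ≠ 0 := Rat.cast_ne_zero.2 hQ
    have h2 : g (fun k => C.ι (v k)) = (Q : K)⁻¹ * ∑ i, fr i (fun k => π * v k) • c i -
        ∑ i, fr i v • c i := by
      rw [h1, inv_mul_cancel_left₀ hQ']
      ring
    rw [h2, Finset.mul_sum, ← Finset.sum_sub_distrib]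
    refine Finset.sum_congr rfl fun i _ => ?_
    rw [hgr, sub_smul, mul_smul, Algebra.smul_def Q⁻¹, eq_ratCast, Rat.cast_inv]
  have hgi : ∀ i, gr i = 0 := by
    intro i
    refine semisimple_rat X π Q hQ (fr i) (gr i) (fun v => ?_) (fun v => ?_)
    · rw [hgr, add_sub_cancel, mul_inv_cancel_left₀ hQ]
    · have h1 := hg v
      rw [hgv (fun k => π * v k), hgv v] at h1
      have h2 : ∑ i, (gr i (fun k => π * v k) - Q * gr i v) • c i = 0 := by
        simp only [sub_smul, Finset.sum_sub_distrib]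
        rw [h1, Finset.mul_sum, sub_eq_zero]
        refine Finset.sum_congr rfl fun i _ => ?_
        rw [mul_smul, Algebra.smul_def Q, eq_ratCast]
      have h3 := Fintype.linearIndependent_iff.1 hc _ h2 i
      linarith [h3]
  refine eq_zero_of_restr C g fun v => ?_
  rw [hgv v]
  refine Finset.sum_eq_zero fun i _ => ?_
  rw [hgi i]
  exact zero_smul ℚ _

instance finiteForms {K V : Type} [Field K] [AddCommGroup V] [Module K V] [FiniteDimensional K V]
    (m : ℕ) : FiniteDimensional K (Forms K V m) := by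
  let T : Forms K V m →ₗ[K] MultilinearMap K (fun _ : Fin (2 * m) => V) K :=
    { toFun := fun f => f.toMultilinearMap
      map_add' := fun _ _ => rfl
      map_smul' := fun _ _ => rfl }
  refine FiniteDimensional.of_injective T ?_
  intro f g h
  ext v
  exact congrFun (congrArg DFunLike.coe h) v

/-- Lifting of the invariants. -/
theorem tate_quot (X : CMAV)
    (hring : ∀ {κ : Type} [Finite κ] (f : X.H1 [⋀^κ]→ₗ[ℚ] ℚ), IsHodge X.per f → DWRing X κ f)
    {K V G : Type} [Field K] [CharZero K] [AddCommGroup V] [Module K V] [Group G]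
    (C : Comparison X K V) (ρ : Representation K G V) (χ : G →* K) (w : AbsoluteValue ℂ ℝ)
    (q : ℕ) (π : X.H1) (γ : G) (h : IsFrobeniusAt X C ρ χ w q π γ) : TateForQuotients C ρ χ := by
  classical
  intro m Δ hΔ W hW f hf
  obtain ⟨N, hN, hNΔ⟩ := exists_pow_mem Δ hΔ γ
  set s := γ ^ N with hs
  have hq : (q : K) ≠ 0 := Nat.cast_ne_zero.2 h.ne_zero
  have hχ : χ s = (q : K) ^ N := by rw [hs, map_pow, h.char_eq]
  have hχ' : χ s⁻¹ ^ m = ((q : K) ^ (m * N))⁻¹ := by
    rw [map_inv, hχ, inv_pow, ← pow_mul, mul_comm N m]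
  have hfin : FiniteDimensional K V := by
    let b := Module.finBasis ℚ X.H1
    refine ⟨⟨Finset.univ.image fun i => C.ι (b i), ?_⟩⟩
    rw [eq_top_iff, ← C.span_eq, Submodule.span_le]
    rintro _ ⟨x, rfl⟩
    have h2 := b.sum_repr x
    rw [← h2, map_sum]
    refine Submodule.sum_mem _ fun i _ => ?_
    let _ : Algebra ℚ K := DivisionRing.toRatAlgebra
    let _ : Module ℚ V := Module.compHom V (algebraMap ℚ K)
    have h3 : C.ι (b.repr x i • b i) = (algebraMap ℚ K (b.repr x i)) • C.ι (b i) :=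
      C.ι.toRatLinearMap.map_smul _ _
    rw [h3]
    refine Submodule.smul_mem _ _ (Submodule.subset_span ?_)
    exact Finset.mem_coe.2 (Finset.mem_image.2 ⟨i, Finset.mem_univ _, rfl⟩)
  let T : Forms K V m →ₗ[K] Forms K V m :=
    { toFun := fun f => act ρ χ m s⁻¹ f
      map_add' := fun f g => by
        ext v
        change χ s⁻¹ ^ m * (f _ + g _) = χ s⁻¹ ^ m * f _ + χ s⁻¹ ^ m * g _
        ring
      map_smul' := fun a f => by
        ext v
        change χ s⁻¹ ^ m * (a * f _) = a * (χ s⁻¹ ^ m * f _)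
        ring }
  have hT : ∀ (f : Forms K V m) (v : Fin (2 * m) → V), T f v =
      ((q : K) ^ (m * N))⁻¹ * f (fun k => ρ s (v k)) := by
    intro f v
    change χ s⁻¹ ^ m * f (fun k => ρ s⁻¹⁻¹ (v k)) = _
    rw [hχ', inv_inv]
  have hQ : (q : K) ^ (m * N) ≠ 0 := pow_ne_zero _ hq
  have hπ : ∀ (f : Forms K V m) (v : Fin (2 * m) → X.H1),
      f (fun k => ρ s (C.ι (v k))) = f (fun k => C.ι (π ^ N * v k)) := by
    intro f v
    congr 1
    funext k
    exact pow_apply C.ι ρ γ h.apply_eq N (v k)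
  have hkey : ∀ (f : Forms K V m) (v : Fin (2 * m) → X.H1),
      f (fun k => C.ι (π ^ N * v k)) = (q : K) ^ (m * N) * T f (fun k => C.ι (v k)) := by
    intro f v
    rw [hT, mul_inv_cancel_left₀ hQ, hπ]
  let S : Forms K V m →ₗ[K] Forms K V m := T - LinearMap.id
  have hS : ∀ f : Forms K V m, S f = T f - f := fun f => rfl
  obtain ⟨f0, h1, h2⟩ := lift_invariant S (fun f hf => by
      have h3 : T (S f) = S f := by
        have h4 := hf
        rw [hS (S f), sub_eq_zero] at h4
        exact h4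
      refine semisimple X C (π ^ N) ((q : ℚ) ^ (m * N))
        (pow_ne_zero _ (Nat.cast_ne_zero.2 h.ne_zero)) f (S f)
        (fun v => ?_) (fun v => ?_)
      · rw [hkey]
        push_cast
        congr 1
        change _ = f _ + (T f _ - f _)
        ring
      · rw [hkey, h3]
        push_cast
        rfl) W (fun f hf => by
      rw [hS]
      exact W.sub_mem (hW _ (Δ.inv_mem hNΔ) f hf) hf) f (hf _ (Δ.inv_mem hNΔ))
  refine ⟨f0, ?_, h2⟩
  have h3 : T f0 = f0 := by
    rw [hS, sub_eq_zero] at h1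
    exact h1
  have h4 : LN.IsGenerated C f0 := LN.generated_of_ring X hring C w q h.ne_zero h.lt_one π
    h.shimuraTaniyama N m hN f0 fun v => by rw [hkey, h3]
  exact h4

/-- Powers of abelian varieties of CM type of dimension at most five. -/
theorem tate_open_five (Y : CMAV) (hY : finrank ℚ Y.H1 ≤ 10) (n : ℕ)
    {K V G : Type} [Field K] [CharZero K] [AddCommGroup V] [Module K V] [Group G]
    (C : Comparison (powerX Y n) K V) (ρ : Representation K G V) (χ : G →* K)
    (w : AbsoluteValue ℂ ℝ) (q : ℕ) (π : (powerX Y n).H1) (γ : G)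
    (h : IsFrobeniusAt (powerX Y n) C ρ χ w q π γ) : TateForQuotients C ρ χ :=
  tate_quot (powerX Y n) (fun f hf => ring_five Y hY n f hf) C ρ χ w q π γ h

/-- Products of copies of an abelian variety with complex multiplication by a field of degree at most
fourteen. -/
theorem tate_open_seven (A : CMPair) (hA : finrank ℚ A.E ≤ 14) (X : CMAV)
    (hX : ∀ i, X.factor i = A)
    {K V G : Type} [Field K] [CharZero K] [AddCommGroup V] [Module K V] [Group G]
    (C : Comparison X K V) (ρ : Representation K G V) (χ : G →* K) (w : AbsoluteValue ℂ ℝ)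
    (q : ℕ) (π : X.H1) (γ : G) (h : IsFrobeniusAt X C ρ χ w q π γ) : TateForQuotients C ρ χ :=
  tate_quot X (fun f hf => TM.ring_of_hodge_copies A hA X hX f hf) C ρ χ w q π γ h

end

end Pool.Agent.W547.LQ
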