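import Pool.Agent.W547.LD.Defs
import Pool.Agent.W547.LF.Defs
import Pool.Agent.W530.NF.Defs

/-!
# Tate classes modulo a stable subspace: the Tate conjecture for open subvarieties
-/

namespace Pool.Agent.W547.LQ

open Module Pool.Agent.W547.KB Pool.Agent.W547.LD Pool.Agent.W530.NF

/-- `f` is a linear combination, with coefficients in `K = ℚ_ℓ`, of classes in the ring `DWRing X`
generated by divisors and by pull-backs of split Weil classes on fourfolds and sixfolds. -/
def IsGenerated {X : CMAV} {K V : Type} [Field K] [AddCommGroup V] [Module K V]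
    (C : Comparison X K V) {κ : Type} (f : V [⋀^κ]→ₗ[K] K) : Prop :=
  ∃ (r : ℕ) (c : Fin r → K) (g : Fin r → X.H1 [⋀^κ]→ₗ[ℚ] ℚ), (∀ i, DWRing X κ (g i)) ∧
    ∀ v : κ → X.H1, f (fun k => C.ι (v k)) = ∑ i, c i * (g i v : K)

/-- `γ ∈ G` is a Frobenius element: it acts on the rational Tate module `V` of `X` by the
multiplication by `π ∈ ∏ E_i`, with absolute values given by the formula of Shimura and Taniyama, and
`χ (γ) = q`. Over a number field this holds at the places above a prime number that splits completely
in the CM fields, and over a finite field for the Frobenius endomorphism of an ordinary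
abelian variety with canonical lift `X`. -/
structure IsFrobeniusAt (X : CMAV) {K V G : Type} [Field K] [AddCommGroup V] [Module K V]
    [Group G] (C : Comparison X K V) (ρ : Representation K G V) (χ : G →* K)
    (w : AbsoluteValue ℂ ℝ) (q : ℕ) (π : X.H1) (γ : G) : Prop where
  ne_zero : q ≠ 0
  lt_one : w q < 1
  shimuraTaniyama : ShimuraTaniyama X w q π
  char_eq : χ γ = q
  apply_eq : ∀ x : X.H1, ρ γ (C.ι x) = C.ι (π * x)

/-- The cohomology group `H^{2m}(X, ℚ_ℓ(m))`: the alternating forms in `2 m` variables on the rational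
Tate module `V`. -/
abbrev Forms (K V : Type) [Field K] [AddCommGroup V] [Module K V] (m : ℕ) : Type :=
  V [⋀^Fin (2 * m)]→ₗ[K] K

/-- The action of `s ∈ G` on `H^{2m}(X, ℚ_ℓ(m))`: `(s f)(v) = χ(s)^m f(s⁻¹ v)`. -/
def act {K V G : Type} [Field K] [AddCommGroup V] [Module K V] [Group G]
    (ρ : Representation K G V) (χ : G →* K) (m : ℕ) (s : G) (f : Forms K V m) : Forms K V m :=
  (χ s ^ m) • f.compLinearMap (ρ s⁻¹)

/-- Let `W` be a subspace of `H^{2m}(X, ℚ_ℓ(m))` stable under a subgroup `Δ` of finite index (for an
open subvariety `U` of `X`, the kernel of the restriction to `U`). All classes that are invariant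
under `Δ` modulo `W` are congruent modulo `W` to linear combinations of polynomials in classes
of divisors and pull-backs of split Weil classes on fourfolds and sixfolds. -/
def TateForQuotients {X : CMAV} {K V G : Type} [Field K] [AddCommGroup V] [Module K V] [Group G]
    (C : Comparison X K V) (ρ : Representation K G V) (χ : G →* K) : Prop :=
  ∀ (m : ℕ) (Δ : Subgroup G), Δ.FiniteIndex → ∀ W : Submodule K (Forms K V m),
    (∀ s ∈ Δ, ∀ f ∈ W, act ρ χ m s f ∈ W) →
      ∀ f : Forms K V m, (∀ s ∈ Δ, act ρ χ m s f - f ∈ W) →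
        ∃ g : Forms K V m, IsGenerated C g ∧ f - g ∈ W

end Pool.Agent.W547.LQ
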